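import Pool.Agent.H64.BM.Conf

/-!
Torsion-free barely transitive groups: small supports, finitely generated groups.
-/

set_option autoImplicit false

namespace H64.BM

open H47.BT (Bare)
open H64.BC (exists_ne_one)
open MulAction

/-- **No micro-supported actions, local form.** -/
theorem local_micro {G Ω X : Type*} [Group G] [MulAction G Ω] [MulAction G X] [TopologicalSpace X]
    [T2Space X] [ContinuousConstSMul G X] [FaithfulSMul G X] (h : Bare G Ω) (x : Ω) {V : Set X}
    (hV : IsOpen V) (hVn : V.Nonempty)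
    (micro : ∀ U : Set X, IsOpen U → U.Nonempty → U ⊆ V → (Ri U : Subgroup G) ≠ ⊥) : False := by
  let O : Set X := {y | ∃ a : G, a • y ∈ V}
  have hO : IsOpen O := by
    have : O = ⋃ a : G, (fun y => a • y) ⁻¹' V := by
      ext y
      simp [O]
    rw [this]
    exact isOpen_iUnion fun a => hV.preimage (continuous_const_smul a)
  have hVO : V ⊆ O := fun y hy => ⟨1, by rwa [one_smul]⟩
  let Z : SubMulAction G X := ⟨O, by
    rintro c y ⟨a, ha⟩
    exact ⟨a * c⁻¹, by rwa [mul_smul, inv_smul_smul]⟩⟩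
  have ht2 : T2Space Z := inferInstanceAs (T2Space (Subtype fun y => y ∈ O))
  have hcont : ContinuousConstSMul G Z := ⟨fun a =>
    Continuous.subtype_mk ((continuous_const_smul a).comp continuous_subtype_val) _⟩
  have hne : Nonempty Z := by
    obtain ⟨y, hy⟩ := hVn
    exact ⟨⟨y, hVO hy⟩⟩
  have hfaith : FaithfulSMul G Z := by
    let N : Subgroup G :=
      { carrier := {g | ∀ y ∈ O, g • y = y}
        one_mem' := fun y _ => one_smul G y
        mul_mem' := by
          intro a b ha hb y hy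
          rw [mul_smul, hb y hy, ha y hy]
        inv_mem' := by
          intro a ha y hy
          rw [inv_smul_eq_iff, ha y hy] }
    have hN : N.Normal := by
      refine ⟨fun n hn a y hy => ?_⟩
      have h1 : a⁻¹ • y ∈ O := Z.smul_mem a⁻¹ hy
      rw [mul_smul, mul_smul, hn _ h1, smul_inv_smul]
    rcases h.simple N hN with h1 | h1
    · refine ⟨fun {g1 g2} hgg => ?_⟩
      have h2 : g2⁻¹ * g1 ∈ N := by
        intro y hy
        have h3 : g1 • y = g2 • y := congrArg Subtype.val (hgg ⟨y, hy⟩)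
        rw [mul_smul, h3, inv_smul_smul]
      rw [h1] at h2
      exact (inv_mul_eq_one.1 (Subgroup.mem_bot.1 h2)).symm
    · exfalso
      obtain ⟨g, hg, hg1⟩ := exists_ne_one (micro V hV hVn (Set.Subset.refl _))
      apply hg1
      refine eq_of_smul_eq_smul (α := X) fun y => ?_
      rw [one_smul]
      by_cases hy : y ∈ V
      · have : g ∈ N := by rw [h1]; trivial
        exact this y (hVO hy)
      · exact hg y hy
  refine no_micro (X := Z) h x ?_
  intro U hU hUn
  obtain ⟨z, hz⟩ := hUn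
  obtain ⟨a, ha⟩ := z.2
  have hW : IsOpen (Subtype.val '' U : Set X) := hO.isOpenEmbedding_subtypeVal.isOpenMap U hU
  obtain ⟨g, hg, hg1⟩ := exists_ne_one (micro (V ∩ (fun y => a⁻¹ • y) ⁻¹' (Subtype.val '' U))
    (hV.inter (hW.preimage (continuous_const_smul a⁻¹))) ⟨a • (z : X), ha, by
      show a⁻¹ • a • (z : X) ∈ (Subtype.val '' U : Set X)
      rw [inv_smul_smul]
      exact ⟨z, hz, rfl⟩⟩ Set.inter_subset_left)
  intro hc
  apply hg1
  have h1 : a⁻¹ * g * a ∈ (Ri U : Subgroup G) := by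
    intro y hy
    refine Subtype.ext ?_
    show (a⁻¹ * g * a) • (y : X) = y
    have h2 : a • (y : X) ∉ V ∩ (fun y => a⁻¹ • y) ⁻¹' (Subtype.val '' U : Set X) := by
      rintro ⟨_, hy2⟩
      have hy2 : a⁻¹ • a • (y : X) ∈ (Subtype.val '' U : Set X) := hy2
      rw [inv_smul_smul] at hy2
      obtain ⟨y', hy', hyy⟩ := hy2
      exact hy (Subtype.ext hyy ▸ hy')
    rw [mul_smul, mul_smul, hg _ h2, inv_smul_smul]
  rw [hc] at h1
  have h2 := Subgroup.mem_bot.1 h1
  have h3 : a * (a⁻¹ * g * a) * a⁻¹ = a * 1 * a⁻¹ := by rw [h2]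
  have e1 : a * (a⁻¹ * g * a) * a⁻¹ = g := by group
  have e2 : a * 1 * a⁻¹ = (1 : G) := by group
  rwa [e1, e2] at h3

/-- **No confined subgroups**, as an alternative. -/
theorem conf_or {G Ω : Type*} [Group G] [MulAction G Ω] (h : Bare G Ω) {K : Subgroup G}
    (hK : K ≠ ⊤) : (∀ P : Finset G, 1 ∉ P → ∃ g : G, ∀ p ∈ P, g⁻¹ * p * g ∉ K) ∨
      (¬ Group.FG G ∧ ∀ S : Finset G, ∃ g : G, ∀ s ∈ S, g⁻¹ * s * g ∈ K) := by
  obtain ⟨x⟩ := h.exists_point
  by_cases hP : ∀ P : Finset G, 1 ∉ P → ∃ g : G, ∀ p ∈ P, g⁻¹ * p * g ∉ K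
  · exact Or.inl hP
  right
  push Not at hP
  obtain ⟨P, hP1, hP⟩ := hP
  have hS : ∀ S : Finset G, ∃ g : G, ∀ s ∈ S, g⁻¹ * s * g ∈ K := by
    by_contra hS
    push Not at hS
    obtain ⟨S, hS⟩ := hS
    exact conf h x hP1 hP hS
  refine ⟨fun hfg => hK ?_, hS⟩
  obtain ⟨S, hS1⟩ := Group.fg_def.1 hfg
  obtain ⟨g, hg⟩ := hS S
  have h1 : Subgroup.closure (S : Set G) ≤ H47.BT.cj g K := by
    rw [Subgroup.closure_le]
    intro s hs
    exact H47.BT.mem_cj.2 (hg s hs)
  rw [hS1] at h1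
  refine H47.BT.cj_inj g ?_
  rw [top_le_iff.1 h1, H47.BT.cj_top]

end H64.BM
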