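import Pool.Agent.H64.BM.All
import Pool.Agent.H64.HP.LN

/-!
Torsion-free barely transitive groups: if every finite set lies in a conjugate of a proper subgroup then
every finite set lies in a conjugate of every open subgroup, and no open subgroup is finitely generated.
-/

set_option autoImplicit false

namespace H64.BM

open H47.BT (Bare)
open MulAction

variable {G Ω : Type*} [Group G] [MulAction G Ω]

/-- a power which maps a subgroup into a subgroup of finite index -/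
theorem exists_uniform {N P : Subgroup G} (h : N.relIndex P ≠ 0) :
    ∃ m : ℕ, m ≠ 0 ∧ ∀ a ∈ P, a ^ m ∈ N := by
  refine ⟨(N.relIndex P).factorial, Nat.factorial_ne_zero _, fun a ha => ?_⟩
  obtain ⟨n, hn, hn1, han⟩ := Subgroup.exists_pow_mem_of_relIndex_ne_zero h ha
  obtain ⟨c, hc⟩ := Nat.dvd_factorial hn hn1
  rw [hc, pow_mul]
  exact pow_mem han.1 c

/-- **Finite sets have small conjugates.** -/
theorem small_conj (h : Bare G Ω) (x : Ω) {K : Subgroup G} (hK : K ≠ ⊤)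
    (hS : ∀ S : Finset G, ∃ g : G, ∀ s ∈ S, g⁻¹ * s * g ∈ K) {V : Subgroup G}
    (hV : V.relIndex (stabilizer G x) ≠ 0) (S : Finset G) : ∃ g : G, ∀ s ∈ S, g⁻¹ * s * g ∈ V := by
  classical
  obtain ⟨P, hPt, hKP, _⟩ := H64.BA.exists_open h x hK
  obtain ⟨N, hN, hNV, _, hNc⟩ := H64.HP.exists_core
    (Subgroup.relIndex_ne_zero_trans hV (h.rel hPt x))
  choose y hy using hS
  let Z : Subgroup G :=
    { carrier := {g | ∃ S0 : Finset G, ∀ S, S0 ⊆ S → (y S)⁻¹ * g * y S ∈ N}
      one_mem' := ⟨∅, fun S _ => by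
        have : (y S)⁻¹ * 1 * y S = 1 := by group
        rw [this]
        exact one_mem _⟩
      mul_mem' := by
        rintro a b ⟨S1, ha⟩ ⟨S2, hb⟩
        refine ⟨S1 ∪ S2, fun S hS => ?_⟩
        have : (y S)⁻¹ * (a * b) * y S = ((y S)⁻¹ * a * y S) * ((y S)⁻¹ * b * y S) := by group
        rw [this]
        exact mul_mem (ha S (Finset.subset_union_left.trans hS))
          (hb S (Finset.subset_union_right.trans hS))
      inv_mem' := by
        rintro a ⟨S1, ha⟩
        refine ⟨S1, fun S hS => ?_⟩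
        have : (y S)⁻¹ * a⁻¹ * y S = ((y S)⁻¹ * a * y S)⁻¹ := by group
        rw [this]
        exact inv_mem (ha S hS) }
  have hZ : Z.Normal := by
    refine ⟨?_⟩
    rintro n ⟨S1, hn⟩ k
    refine ⟨insert k S1, fun S hS => ?_⟩
    have h1 := hNc _ (hKP (hy S k (hS (Finset.mem_insert_self _ _)))) _
      (hn S ((Finset.subset_insert _ _).trans hS))
    have : (y S)⁻¹ * k * y S * ((y S)⁻¹ * n * y S) * ((y S)⁻¹ * k * y S)⁻¹ =
        (y S)⁻¹ * (k * n * k⁻¹) * y S := by group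
    rwa [this] at h1
  have hZt : Z = ⊤ := by
    rcases h.simple Z hZ with h1 | h1
    · exfalso
      obtain ⟨g, hg⟩ := h.exists_ne
      obtain ⟨m, hm, hmN⟩ := exists_uniform hN
      have h2 : g ^ m ∈ Z := by
        refine ⟨{g}, fun S hS => ?_⟩
        have h3 := hmN _ (hKP (hy S g (hS (Finset.mem_singleton_self _))))
        have h4 := conj_pow (i := m) (a := (y S)⁻¹) (b := g)
        rw [inv_inv] at h4
        rwa [h4] at h3
      rw [h1] at h2
      exact hg (h.pw hm (Subgroup.mem_bot.1 h2))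
    · exact h1
  have hall : ∀ g : G, ∃ S0 : Finset G, ∀ S, S0 ⊆ S → (y S)⁻¹ * g * y S ∈ N := by
    intro g
    have : g ∈ Z := by rw [hZt]; trivial
    exact this
  choose S0 hS0 using hall
  exact ⟨y (S.biUnion S0), fun s hs => hNV (hS0 s _ (Finset.subset_biUnion_of_mem S0 hs))⟩

/-- **No open subgroup is finitely generated.** -/
theorem not_fg (h : Bare G Ω) (x : Ω) (hfg : ¬ Group.FG G) {V : Subgroup G}
    (hV : V.relIndex (stabilizer G x) ≠ 0)
    (hS : ∀ S : Finset G, ∃ g : G, ∀ s ∈ S, g⁻¹ * s * g ∈ V) : ¬ V.FG := by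
  intro hVfg
  have hnt : ∀ W : Subgroup G, W.FG → W ≠ ⊤ := by
    rintro W hW rfl
    exact hfg (Group.fg_def.2 hW)
  have hcyc : ∀ g : G, (Subgroup.zpowers g).FG := fun g =>
    ⟨{g}, by simp [Subgroup.zpowers_eq_closure]⟩
  obtain ⟨g, hg⟩ : ∃ g : G, g ∉ V := by
    by_contra hc
    push Not at hc
    exact hnt V hVfg (eq_top_iff.2 fun g _ => hc g)
  have hP := hVfg.sup (hcyc g)
  have hgP : g ∈ V ⊔ Subgroup.zpowers g :=
    (le_sup_right : Subgroup.zpowers g ≤ _) (Subgroup.mem_zpowers g)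
  have hVP : V ≤ V ⊔ Subgroup.zpowers g := le_sup_left
  generalize V ⊔ Subgroup.zpowers g = P at hP hgP hVP
  obtain ⟨S, hSP⟩ := id hP
  obtain ⟨y, hy⟩ := hS S
  have hPy : H47.BT.cj y⁻¹ P ≤ V := by
    have h1 : P ≤ H47.BT.cj y V := by
      rw [← hSP, Subgroup.closure_le]
      intro s hs
      exact H47.BT.mem_cj.2 (hy s hs)
    have h2 := H47.BT.cj_mono y⁻¹ h1
    rwa [H47.BT.cj_inv_cj] at h2
  have hW := hP.sup (hcyc y)
  have hyW : y ∈ P ⊔ Subgroup.zpowers y :=
    (le_sup_right : Subgroup.zpowers y ≤ _) (Subgroup.mem_zpowers y)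
  have hPW : P ≤ P ⊔ Subgroup.zpowers y := le_sup_left
  generalize P ⊔ Subgroup.zpowers y = W at hW hyW hPW
  have hVW : V.relIndex W ≠ 0 := Subgroup.relIndex_ne_zero_trans hV (h.rel (hnt W hW) x)
  have h1 := Subgroup.relIndex_mul_relIndex V P W hVP hPW
  have hcW : H47.BT.cj y⁻¹ W = W := by
    ext w
    rw [H47.BT.mem_cj, inv_inv]
    constructor
    · intro hw
      have := mul_mem (mul_mem (inv_mem hyW) hw) hyW
      have e : y⁻¹ * (y * w * y⁻¹) * y = w := by group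
      rwa [e] at this
    · exact fun hw => mul_mem (mul_mem hyW hw) (inv_mem hyW)
  have h2 : (H47.BT.cj y⁻¹ P).relIndex W = P.relIndex W := by
    have : (H47.BT.cj y⁻¹ P).relIndex (H47.BT.cj y⁻¹ W) = P.relIndex W := by
      unfold H47.BT.cj
      rw [Subgroup.relIndex_map_map_of_injective]
      exact (MulAut.conj y⁻¹).injective
    rwa [hcW] at this
  have h3 := Subgroup.relIndex_dvd_of_le_left W hPy
  rw [h2, ← h1] at h3
  have h4 : P.relIndex W ≠ 0 := by
    intro hc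
    rw [hc, mul_zero] at h1
    exact hVW h1.symm
  have h5 : V.relIndex P ∣ 1 := by
    refine Nat.dvd_of_mul_dvd_mul_right (Nat.pos_of_ne_zero h4) ?_
    rwa [one_mul]
  exact hg (Subgroup.relIndex_eq_one.1 (Nat.dvd_one.1 h5) hgP)

/-- **Confined subgroups**, the alternative. -/
theorem conf_or' (h : Bare G Ω) (x : Ω) {K : Subgroup G} (hK : K ≠ ⊤) :
    (∀ P : Finset G, 1 ∉ P → ∃ g : G, ∀ p ∈ P, g⁻¹ * p * g ∉ K) ∨
      ((∀ S : Finset G, ∃ g : G, ∀ s ∈ S, g⁻¹ * s * g ∈ K) ∧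
        ∀ V : Subgroup G, V.relIndex (stabilizer G x) ≠ 0 →
          ¬ V.FG ∧ ∀ S : Finset G, ∃ g : G, ∀ s ∈ S, g⁻¹ * s * g ∈ V) := by
  rcases conf_or h hK with h1 | ⟨hfg, h1⟩
  · exact Or.inl h1
  · refine Or.inr ⟨h1, fun V hV => ?_⟩
    have h2 := small_conj h x hK h1 hV
    exact ⟨not_fg h x hfg hV h2, h2⟩

end H64.BM
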