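import Pool.Agent.H64.BM.Top

/-!
Torsion-free barely transitive groups have no confined subgroups.
-/

set_option autoImplicit false

namespace H64.BM

open H47.BT (Bare)
open MulAction

/-- the space of subsets of `G` -/
def Fn (G : Type*) : Type _ := G → Bool

section
variable {G : Type*} [Group G]

instance : TopologicalSpace (Fn G) := inferInstanceAs (TopologicalSpace (G → Bool))
instance : CompactSpace (Fn G) := inferInstanceAs (CompactSpace (G → Bool))
instance : T2Space (Fn G) := inferInstanceAs (T2Space (G → Bool))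

/-- conjugation -/
instance : MulAction G (Fn G) where
  smul a f := fun b => f (a⁻¹ * b * a)
  one_smul f := by
    funext b
    show f (1⁻¹ * b * 1) = f b
    simp
  mul_smul a c f := by
    funext b
    show f ((a * c)⁻¹ * b * (a * c)) = f (c⁻¹ * (a⁻¹ * b * a) * c)
    congr 1
    group

theorem smul_fn (a : G) (f : Fn G) (b : G) : (a • f) b = f (a⁻¹ * b * a) := rfl

omit [Group G] in
theorem cont_ev (b : G) : Continuous fun f : Fn G => f b := continuous_apply (A := fun _ : G => Bool) b

instance : ContinuousConstSMul G (Fn G) where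
  continuous_const_smul a := continuous_pi fun b => cont_ev (a⁻¹ * b * a)

/-- the closed set of subgroups which contain in all conjugates an element of `P` and miss one of
`S` -/
def Cs (P S : Finset G) : Set (Fn G) :=
  {f | f 1 = true ∧ (∀ a b, f a = true → f b = true → f (a * b) = true) ∧
    (∀ a, f a = true → f a⁻¹ = true) ∧ (∀ a, ∃ p ∈ P, f (a⁻¹ * p * a) = true) ∧
    ∀ a, ∃ s ∈ S, f (a⁻¹ * s * a) = false}

omit [Group G] in
theorem closed_ev (b : G) (v : Bool) : IsClosed {f : Fn G | f b = v} :=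
  (isClosed_discrete ({v} : Set Bool)).preimage (cont_ev b)

omit [Group G] in
theorem open_ev (b : G) (v : Bool) : IsOpen {f : Fn G | f b = v} :=
  (isOpen_discrete ({v} : Set Bool)).preimage (cont_ev b)

omit [Group G] in
theorem closed_imp {q r : Fn G → Prop} (hq : IsOpen {f | q f}) (hr : IsClosed {f | r f}) :
    IsClosed {f | q f → r f} := by
  have : {f | q f → r f} = {f | q f}ᶜ ∪ {f | r f} := by
    ext f
    simp only [Set.mem_ofPred_eq, Set.mem_union, Set.mem_compl_iff]
    tauto
  rw [this]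
  exact hq.isClosed_compl.union hr

theorem closed_Cs (P S : Finset G) : IsClosed (Cs P S) := by
  have h1 : IsClosed {f : Fn G | f 1 = true} := closed_ev 1 true
  have h2 : IsClosed {f : Fn G | ∀ a b, f a = true → f b = true → f (a * b) = true} := by
    simp only [Set.ofPred_forall]
    exact isClosed_iInter fun a => isClosed_iInter fun b =>
      closed_imp (open_ev a true) (closed_imp (open_ev b true) (closed_ev _ true))
  have h3 : IsClosed {f : Fn G | ∀ a, f a = true → f a⁻¹ = true} := by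
    simp only [Set.ofPred_forall]
    exact isClosed_iInter fun a => closed_imp (open_ev a true) (closed_ev _ true)
  have h4 : ∀ (Q : Finset G) (v : Bool), IsClosed {f : Fn G | ∀ a, ∃ p ∈ Q, f (a⁻¹ * p * a) = v} := by
    intro Q v
    simp only [Set.ofPred_forall]
    refine isClosed_iInter fun a => ?_
    have : {f : Fn G | ∃ p ∈ Q, f (a⁻¹ * p * a) = v} = ⋃ p ∈ Q, {f : Fn G | f (a⁻¹ * p * a) = v} := by
      ext f
      simp
    rw [this]
    exact isClosed_biUnion_finset fun p _ => closed_ev _ v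
  exact h1.inter (h2.inter (h3.inter ((h4 P true).inter (h4 S false))))

theorem inv_Cs {P S : Finset G} (c : G) {f : Fn G} (hf : f ∈ Cs P S) : c • f ∈ Cs P S := by
  obtain ⟨h1, h2, h3, h4, h5⟩ := hf
  refine ⟨?_, ?_, ?_, ?_, ?_⟩
  · rw [smul_fn]
    have : c⁻¹ * 1 * c = 1 := by group
    rw [this]
    exact h1
  · intro a b ha hb
    rw [smul_fn] at ha hb ⊢
    have : c⁻¹ * (a * b) * c = (c⁻¹ * a * c) * (c⁻¹ * b * c) := by group
    rw [this]
    exact h2 _ _ ha hb
  · intro a ha
    rw [smul_fn] at ha ⊢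
    have : c⁻¹ * a⁻¹ * c = (c⁻¹ * a * c)⁻¹ := by group
    rw [this]
    exact h3 _ ha
  · intro a
    obtain ⟨p, hp, hpa⟩ := h4 (a * c)
    refine ⟨p, hp, ?_⟩
    rw [smul_fn, ← hpa]
    congr 1
    group
  · intro a
    obtain ⟨p, hp, hpa⟩ := h5 (a * c)
    refine ⟨p, hp, ?_⟩
    rw [smul_fn, ← hpa]
    congr 1
    group

/-- minimal closed invariant subsets exist -/
theorem exists_min {C : Set (Fn G)} (hC : IsClosed C) (hCn : C.Nonempty)
    (hCi : ∀ a : G, ∀ f ∈ C, a • f ∈ C) : ∃ Y ⊆ C, IsClosed Y ∧ Y.Nonempty ∧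
      (∀ a : G, ∀ f ∈ Y, a • f ∈ Y) ∧ ∀ Z ⊆ Y, IsClosed Z → Z.Nonempty →
        (∀ a : G, ∀ f ∈ Z, a • f ∈ Z) → Z = Y := by
  obtain ⟨Y, hYC, hY⟩ := zorn_superset_nonempty
    {Z : Set (Fn G) | IsClosed Z ∧ Z.Nonempty ∧ ∀ a : G, ∀ f ∈ Z, a • f ∈ Z} (by
      intro c hc hch hcn
      refine ⟨⋂₀ c, ⟨isClosed_sInter fun s hs => (hc hs).1, ?_, ?_⟩, fun s hs =>
        Set.sInter_subset_of_mem hs⟩
      · have : Nonempty c := hcn.to_subtype
        refine IsCompact.nonempty_sInter_of_directed_nonempty_isCompact_isClosed ?_ ?_ ?_ ?_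
        · intro s hs t ht
          rcases hch.total hs ht with hst | hst
          · exact ⟨s, hs, Set.Subset.refl _, hst⟩
          · exact ⟨t, ht, hst, Set.Subset.refl _⟩
        · intro s hs
          exact (hc hs).2.1
        · intro s hs
          exact (hc hs).1.isCompact
        · intro s hs
          exact (hc hs).1
      · intro a f hf s hs
        exact (hc hs).2.2 a f (hf s hs)) C ⟨hC, hCn, hCi⟩
  refine ⟨Y, hYC, hY.prop.1, hY.prop.2.1, hY.prop.2.2, fun Z hZY hZ hZn hZi => ?_⟩
  exact Set.Subset.antisymm hZY (hY.le_of_le ⟨hZ, hZn, hZi⟩ hZY)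

end

/-- **No confined subgroups.** -/
theorem conf {G Ω : Type*} [Group G] [MulAction G Ω] (h : Bare G Ω) (x : Ω) {K : Subgroup G}
    {P S : Finset G} (hP1 : 1 ∉ P) (hP : ∀ a : G, ∃ p ∈ P, a⁻¹ * p * a ∈ K)
    (hS : ∀ a : G, ∃ s ∈ S, a⁻¹ * s * a ∉ K) : False := by
  classical
  obtain ⟨Y, hYC, hYc, hYn, hYi, hYm⟩ := exists_min (closed_Cs P S)
    ⟨(fun b => decide (b ∈ K) : Fn G), by
      refine ⟨?_, ?_, ?_, ?_, ?_⟩
      · simp
      · intro a b ha hb
        simp only [decide_eq_true_eq] at ha hb ⊢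
        exact mul_mem ha hb
      · intro a ha
        simp only [decide_eq_true_eq] at ha ⊢
        exact inv_mem ha
      · intro a
        obtain ⟨p, hp, hpa⟩ := hP a
        exact ⟨p, hp, by simpa using hpa⟩
      · intro a
        obtain ⟨p, hp, hpa⟩ := hS a
        exact ⟨p, hp, by simpa using hpa⟩⟩ fun a f hf => inv_Cs a hf
  let Z : SubMulAction G (Fn G) := ⟨Y, fun a f hf => hYi a f hf⟩
  have hcomp : CompactSpace Z := isCompact_iff_compactSpace.1 (hYc.isCompact)
  have ht2 : T2Space Z := inferInstanceAs (T2Space (Subtype fun f => f ∈ Y))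
  have hcont : ContinuousConstSMul G Z := ⟨fun a =>
    Continuous.subtype_mk ((continuous_const_smul a).comp continuous_subtype_val) _⟩
  have hmin : IsMinimal G Z := by
    rw [isMinimal_iff_isClosed_smul_invariant]
    intro s hs hsi
    rw [or_iff_not_imp_left]
    intro hne
    have hsn : s.Nonempty := Set.nonempty_iff_ne_empty.2 hne
    have h1 : (Subtype.val '' s : Set (Fn G)) = Y := by
      refine hYm _ ?_ ?_ (hsn.image _) ?_
      · rintro _ ⟨f, _, rfl⟩
        exact f.2
      · exact (hYc.isClosedEmbedding_subtypeVal).isClosedMap s hs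
      · rintro a _ ⟨f, hf, rfl⟩
        exact ⟨a • f, hsi a (Set.smul_mem_smul_set hf), rfl⟩
    rw [Set.eq_univ_iff_forall]
    intro f
    have h2 : (f : Fn G) ∈ (Subtype.val '' s : Set (Fn G)) := by
      rw [h1]
      exact f.2
    obtain ⟨f', hf', hff⟩ := h2
    rwa [Subtype.ext hff] at hf'
  obtain ⟨f0, hf0⟩ := hYn
  obtain ⟨h1, h2, h3, h4, h5⟩ := hYC hf0
  have hntr : Nontrivial Z := by
    by_contra hc
    rw [not_nontrivial_iff_subsingleton] at hc
    let N : Subgroup G :=
      { carrier := {b | f0 b = true}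
        one_mem' := h1
        mul_mem' := fun {a b} ha hb => h2 a b ha hb
        inv_mem' := fun {a} ha => h3 a ha }
    have hN : N.Normal := by
      refine ⟨fun n hn a => ?_⟩
      have e : (⟨a⁻¹ • f0, hYi a⁻¹ f0 hf0⟩ : Z) = ⟨f0, hf0⟩ := Subsingleton.elim _ _
      have e2 : (a⁻¹ • f0) n = f0 n := congrFun (congrArg Subtype.val e) n
      rw [smul_fn, inv_inv] at e2
      show f0 (a * n * a⁻¹) = true
      rw [e2]
      exact hn
    obtain ⟨p, hp, hpa⟩ := h4 1
    obtain ⟨s, hs, hsa⟩ := h5 1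
    have hp1 : 1⁻¹ * p * 1 = p := by group
    have hs1 : 1⁻¹ * s * 1 = s := by group
    rw [hp1] at hpa
    rw [hs1] at hsa
    rcases h.simple N hN with h6 | h6
    · have : p ∈ N := hpa
      rw [h6] at this
      exact hP1 (Subgroup.mem_bot.1 this ▸ hp)
    · have : s ∈ N := by rw [h6]; trivial
      have : f0 s = true := this
      rw [hsa] at this
      exact Bool.false_ne_true this
  obtain ⟨p, hp, hpa⟩ := h4 1
  have hp1 : 1⁻¹ * p * 1 = p := by group
  rw [hp1] at hpa
  refine minimal_free (X := Z) h x (g := p) (fun hc => hP1 (hc ▸ hp))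
    (U := {f : Z | (f : Fn G) p = true})
    ((open_ev p true).preimage continuous_subtype_val) ⟨⟨f0, hf0⟩, hpa⟩ ?_
  rintro ⟨f, hf⟩ hfp
  have hfp : f p = true := hfp
  obtain ⟨g1, g2, g3, _, _⟩ := hYC hf
  refine Subtype.ext ?_
  show p • f = f
  funext b
  rw [smul_fn]
  have hinv : f p⁻¹ = true := g3 p hfp
  have hiff : f (p⁻¹ * b * p) = true ↔ f b = true := by
    constructor
    · intro hb
      have := g2 _ _ (g2 _ _ hfp hb) hinv
      have e : p * (p⁻¹ * b * p) * p⁻¹ = b := by group
      rwa [e] at this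
    · intro hb
      exact g2 _ _ (g2 _ _ hinv hb) hfp
  exact Bool.eq_iff_iff.2 hiff

end H64.BM
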