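import Pool.Agent.H64.BC.Cen

/-!
Torsion-free barely transitive groups have no micro-supported actions.
-/

set_option autoImplicit false

namespace H64.BM

open H47.BT (Bare)
open H64.BC (exists_ne_one)
open MulAction

section
variable {G Ω : Type*} [Group G] [MulAction G Ω]

/-- Torsion-free barely transitive groups are countable. -/
theorem countable (h : Bare G Ω) (x : Ω) : Countable G := by
  classical
  have := h.trans
  have := h.inf
  choose q hq using fun y : Ω => exists_smul_eq G x y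
  let f : ℕ → Ω := Infinite.natEmbedding Ω
  have hf : Function.Injective f := (Infinite.natEmbedding Ω).injective
  have htop : Subgroup.closure (Set.range fun n => q (f n)) = ⊤ := by
    by_contra hc
    have hfin := h.bare _ hc x
    refine Set.infinite_range_of_injective hf (hfin.subset ?_)
    rintro _ ⟨n, rfl⟩
    exact ⟨⟨q (f n), Subgroup.subset_closure ⟨n, rfl⟩⟩, hq (f n)⟩
  -- the closure of a countable set
  have hsurj : Function.Surjective fun l : List (ℕ × Bool) =>
      (l.map fun p => if p.2 then q (f p.1) else (q (f p.1))⁻¹).prod := by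
    intro g
    have hg : g ∈ Subgroup.closure (Set.range fun n => q (f n)) := by rw [htop]; trivial
    induction hg using Subgroup.closure_induction with
    | mem y hy =>
      obtain ⟨n, rfl⟩ := hy
      exact ⟨[(n, true)], by simp⟩
    | one => exact ⟨[], by simp⟩
    | mul a b _ _ ha hb =>
      obtain ⟨l, hl⟩ := ha
      obtain ⟨m, hm⟩ := hb
      refine ⟨l ++ m, ?_⟩
      simp only at hl hm ⊢
      rw [List.map_append, List.prod_append, hl, hm]
    | inv a _ ha =>
      obtain ⟨l, hl⟩ := ha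
      refine ⟨(l.map fun p => (p.1, !p.2)).reverse, ?_⟩
      simp only at hl ⊢
      rw [← hl, List.prod_inv_reverse, List.map_reverse, List.map_map, List.map_map]
      congr 2
      refine List.map_congr_left ?_
      rintro ⟨n, b⟩ _
      cases b <;> simp
  exact hsurj.countable

end

variable {G Ω X : Type*} [Group G] [MulAction G Ω] [MulAction G X]

/-- The elements supported in `U`. -/
def Ri (U : Set X) : Subgroup G where
  carrier := {g | ∀ y, y ∉ U → g • y = y}
  one_mem' := fun y _ => one_smul G y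
  mul_mem' := by
    intro a b ha hb y hy
    rw [mul_smul, hb y hy, ha y hy]
  inv_mem' := by
    intro a ha y hy
    rw [inv_smul_eq_iff, ha y hy]

theorem mem_Ri {U : Set X} {g : G} : g ∈ (Ri U : Subgroup G) ↔ ∀ y, y ∉ U → g • y = y := Iff.rfl

theorem Ri_stay {U : Set X} {g : G} (hg : g ∈ (Ri U : Subgroup G)) {y : X} (hy : y ∈ U) :
    g • y ∈ U := by
  by_contra hc
  have h1 := hg _ hc
  have h2 : g • y = y := MulAction.injective g h1
  rw [h2] at hc
  exact hc hy

/-- Open subgroups act topologically transitively. -/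
theorem top_trans [TopologicalSpace X] [ContinuousConstSMul G X] [FaithfulSMul G X] (h : Bare G Ω) (x : Ω)
    (micro : ∀ U : Set X, IsOpen U → U.Nonempty → (Ri U : Subgroup G) ≠ ⊥) {L : Subgroup G}
    (hL : L.relIndex (stabilizer G x) ≠ 0) {U V : Set X} (hU : IsOpen U) (hV : IsOpen V)
    (hUn : U.Nonempty) (hVn : V.Nonempty) : ∃ l ∈ L, ∃ z ∈ V, l • z ∈ U := by
  by_contra hcon
  push Not at hcon
  let O1 : Set X := {y | ∃ l ∈ L, l • y ∈ U}
  let O2 : Set X := {y | ∃ l ∈ L, l • y ∈ V}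
  have hop : ∀ W : Set X, IsOpen W → IsOpen {y : X | ∃ l ∈ L, l • y ∈ W} := by
    intro W hW
    have : {y : X | ∃ l ∈ L, l • y ∈ W} = ⋃ l ∈ L, (fun y => l • y) ⁻¹' W := by
      ext y
      simp
    rw [this]
    exact isOpen_biUnion fun l _ => hW.preimage (continuous_const_smul l)
  have hsub : ∀ W : Set X, W ⊆ {y : X | ∃ l ∈ L, l • y ∈ W} := by
    intro W y hy
    exact ⟨1, one_mem _, by rwa [one_smul]⟩
  have hdis : ∀ y, y ∈ O1 → y ∈ O2 → False := by
    rintro y ⟨l, hl, hy⟩ ⟨l', hl', hy'⟩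
    refine hcon (l * l'⁻¹) (mul_mem hl (inv_mem hl')) (l' • y) hy' ?_
    rwa [mul_smul, inv_smul_smul]
  have h1 := micro O1 (hop U hU) (hUn.mono (hsub U))
  have h2 := micro O2 (hop V hV) (hVn.mono (hsub V))
  have hnorm : ∀ l ∈ L, ∀ m ∈ (Ri O1 : Subgroup G), l * m * l⁻¹ ∈ (Ri O1 : Subgroup G) := by
    intro l hl m hm y hy
    have h3 : l⁻¹ • y ∉ O1 := by
      rintro ⟨k, hk, hky⟩
      exact hy ⟨k * l⁻¹, mul_mem hk (inv_mem hl), by rwa [mul_smul]⟩
    rw [mul_smul, mul_smul, hm _ h3, smul_inv_smul]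
  have h3 := H64.BC.cz_bot h x h1 hL hnorm
  apply h2
  rw [eq_bot_iff, ← h3]
  intro g hg
  rw [Subgroup.mem_centralizer_iff]
  intro m hm
  have hm : m ∈ (Ri O1 : Subgroup G) := hm
  refine eq_of_smul_eq_smul (α := X) fun y => ?_
  rw [mul_smul, mul_smul]
  by_cases hy : y ∈ O1
  · rw [hg y fun hc => hdis y hy hc, hg (m • y) fun hc => hdis _ (Ri_stay hm hy) hc]
  · rw [hm y hy]
    by_cases hy' : y ∈ O2
    · exact hm _ fun hc => hdis _ hc (Ri_stay hg hy')
    · rw [hg y hy', hm y hy]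

/-- The basic open sets. -/
def B (U : Set X) (s : Finset G) : Set X := {y | ∀ g ∈ s, g • y ∈ U}

theorem mem_B {U : Set X} {s : Finset G} {y : X} : y ∈ B U s ↔ ∀ g ∈ s, g • y ∈ U := Iff.rfl

theorem B_anti {U : Set X} {s s' : Finset G} (h : s ⊆ s') : B U s' ⊆ B U s :=
  fun _ hy g hg => hy g (h hg)

theorem isOpen_B [TopologicalSpace X] [ContinuousConstSMul G X] {U : Set X} (hU : IsOpen U) (s : Finset G) :
    IsOpen (B U s) := by
  have : B U s = ⋂ g ∈ s, (fun y => g • y) ⁻¹' U := by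
    ext y
    simp [B]
  rw [this]
  exact isOpen_biInter_finset fun g _ => hU.preimage (continuous_const_smul g)

open Classical in
/-- the translate -/
noncomputable def sh (s : Finset G) (a : G) : Finset G := s.image fun g => g * a

theorem mem_B_sh {U : Set X} {s : Finset G} {a : G} {y : X} : y ∈ B U (sh s a) ↔ a • y ∈ B U s := by
  classical
  rw [mem_B, mem_B]
  unfold sh
  constructor
  · intro h g hg
    have := h (g * a) (Finset.mem_image.2 ⟨g, hg, rfl⟩)
    rwa [mul_smul] at this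
  · intro h g hg
    obtain ⟨b, hb, rfl⟩ := Finset.mem_image.1 hg
    rw [mul_smul]
    exact h b hb

open Classical in
theorem mem_B_union {U : Set X} {s s' : Finset G} {y : X} :
    y ∈ B U (s ∪ s') ↔ y ∈ B U s ∧ y ∈ B U s' := by
  rw [mem_B, mem_B, mem_B]
  constructor
  · intro h
    exact ⟨fun g hg => h g (Finset.mem_union_left _ hg), fun g hg => h g (Finset.mem_union_right _ hg)⟩
  · rintro ⟨h1, h2⟩ g hg
    rcases Finset.mem_union.1 hg with hg | hg
    · exact h1 g hg
    · exact h2 g hg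

/-- **Torsion-free barely transitive groups have no micro-supported actions.** -/
theorem no_micro [TopologicalSpace X] [T2Space X] [Nonempty X] [ContinuousConstSMul G X] [FaithfulSMul G X]
    (h : Bare G Ω) (x : Ω)
    (micro : ∀ U : Set X, IsOpen U → U.Nonempty → (Ri U : Subgroup G) ≠ ⊥) : False := by
  classical
  have hcount := countable h x
  -- an element moving an open set off itself
  obtain ⟨t, y0, hty⟩ : ∃ (t : G) (y : X), t • y ≠ y := by
    by_contra hc
    push Not at hc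
    obtain ⟨g, hg⟩ := h.exists_ne
    exact hg (eq_of_smul_eq_smul (α := X) fun y => by rw [hc, one_smul])
  obtain ⟨V1, V2, hV1, hV2, hy1, hy2, hV⟩ := t2_separation hty
  let U : Set X := V2 ∩ (fun y => t • y) ⁻¹' V1
  have hU : IsOpen U := hV2.inter (hV1.preimage (continuous_const_smul t))
  have hy0 : y0 ∈ U := ⟨hy2, hy1⟩
  have htU : ∀ y ∈ U, t • y ∉ U := by
    intro y hy hc
    exact Set.disjoint_left.1 hV hy.2 hc.1
  obtain ⟨g, hg, hg1⟩ := exists_ne_one (micro {y | t⁻¹ • y ∈ U}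
    (hU.preimage (continuous_const_smul t⁻¹)) ⟨t • y0, by
      show t⁻¹ • t • y0 ∈ U
      rwa [inv_smul_smul]⟩)
  have hgU : ∀ y ∈ U, g • y = y := by
    intro y hy
    refine hg y fun hc => htU _ hc ?_
    rwa [smul_inv_smul]
  -- the sequence
  let St := {s : Finset G // (B U s : Set X).Nonempty}
  have hstep : ∀ (v : St) (s : Finset G), ∃ v' : St, v.1 ⊆ v'.1 ∧
      ((B U s : Set X).Nonempty → ∃ k ∈ stabilizer G x, ∀ y ∈ (B U v'.1 : Set X), k • y ∈ B U s) := by
    rintro ⟨v, hv⟩ s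
    by_cases hs : (B U s : Set X).Nonempty
    · obtain ⟨k, hk, z, hz, hkz⟩ := top_trans h x micro (L := stabilizer G x)
        (by rw [Subgroup.relIndex_self]; exact one_ne_zero) (isOpen_B hU s) (isOpen_B hU v) hs hv
      refine ⟨⟨v ∪ sh s k, ⟨z, mem_B_union.2 ⟨hz, mem_B_sh.2 hkz⟩⟩⟩, Finset.subset_union_left,
        fun _ => ⟨k, hk, fun y hy => ?_⟩⟩
      exact mem_B_sh.1 (mem_B_union.1 hy).2
    · exact ⟨⟨v, hv⟩, Finset.Subset.refl _, fun hc => absurd hc hs⟩
  choose nx hnx1 hnx2 using hstep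
  obtain ⟨e, he⟩ := exists_surjective_nat (Finset G)
  let s0 : St := ⟨{1}, ⟨y0, fun g hg => by rw [Finset.mem_singleton.1 hg, one_smul]; exact hy0⟩⟩
  let v : ℕ → St := fun n => Nat.rec s0 (fun n p => nx p (e n)) n
  have hvs : ∀ n, v (n + 1) = nx (v n) (e n) := fun n => rfl
  have hmono : Monotone fun n => (v n).1 := monotone_nat_of_le_succ fun n => by
    show (v n).1 ≤ (v (n + 1)).1
    rw [hvs]
    exact hnx1 _ _
  have hH : ∀ s : Finset G, (B U s : Set X).Nonempty →
      ∃ k ∈ stabilizer G x, ∃ n, ∀ y ∈ (B U (v n).1 : Set X), k • y ∈ B U s := by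
    intro s hs
    obtain ⟨n, rfl⟩ := he s
    obtain ⟨k, hk, hky⟩ := hnx2 (v n) (e n) hs
    exact ⟨k, hk, n + 1, fun y hy => hky y (by rwa [hvs] at hy)⟩
  let P : Subgroup G :=
    { carrier := {g | ∃ n, ∀ y ∈ (B U (v n).1 : Set X), g • y = y}
      one_mem' := ⟨0, fun y _ => one_smul G y⟩
      mul_mem' := by
        rintro a b ⟨n, ha⟩ ⟨m, hb⟩
        refine ⟨max n m, fun y hy => ?_⟩
        rw [mul_smul, hb y (B_anti (hmono (le_max_right n m)) hy),
          ha y (B_anti (hmono (le_max_left n m)) hy)]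
      inv_mem' := by
        rintro a ⟨n, ha⟩
        exact ⟨n, fun y hy => by rw [inv_smul_eq_iff, ha y hy]⟩ }
  have hPt : P ≠ ⊤ := by
    intro hc
    have htP : t ∈ P := by rw [hc]; trivial
    obtain ⟨n, hn⟩ := htP
    obtain ⟨y, hy⟩ := (v n).2
    have hyU : y ∈ U := by
      have := hy 1 (hmono (Nat.zero_le n) (Finset.mem_singleton_self 1))
      rwa [one_smul] at this
    have h1 := hn y hy
    apply htU y hyU
    rw [h1]
    exact hyU
  obtain ⟨K, hK, hPK, hKo⟩ := H64.BA.exists_open h x hPt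
  -- representatives
  have hrep : ∃ T : Finset G, ∀ k ∈ stabilizer G x, ∃ c ∈ T, c⁻¹ * k ∈ K ⊓ stabilizer G x := by
    have : (K.subgroupOf (stabilizer G x)).FiniteIndex := ⟨hKo⟩
    have : Finite (stabilizer G x ⧸ K.subgroupOf (stabilizer G x)) :=
      Subgroup.finite_quotient_of_finiteIndex
    have hfin := Set.finite_range
      fun c : stabilizer G x ⧸ K.subgroupOf (stabilizer G x) => ((c.out : stabilizer G x) : G)
    refine ⟨hfin.toFinset, fun k hk => ?_⟩
    refine ⟨_, hfin.mem_toFinset.2 ⟨QuotientGroup.mk (⟨k, hk⟩ : stabilizer G x), rfl⟩, ?_⟩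
    have h1 : (QuotientGroup.mk (QuotientGroup.mk (⟨k, hk⟩ : stabilizer G x) :
        stabilizer G x ⧸ K.subgroupOf (stabilizer G x)).out :
        stabilizer G x ⧸ K.subgroupOf (stabilizer G x)) =
        QuotientGroup.mk (⟨k, hk⟩ : stabilizer G x) := QuotientGroup.out_eq' _
    have h2 := QuotientGroup.eq.1 h1
    rw [Subgroup.mem_subgroupOf] at h2
    exact ⟨h2, mul_mem (Subgroup.inv_mem _ (Subtype.mem _)) hk⟩
  obtain ⟨T, hT⟩ := hrep
  let R : Set X → Prop := fun W =>
    ∃ l ∈ K ⊓ stabilizer G x, ∃ n, ∀ y ∈ (B U (v n).1 : Set X), l • y ∈ W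
  have hR : ∀ W W' : Set X, W ⊆ W' → R W → R W' := by
    rintro W W' hWW ⟨l, hl, n, hn⟩
    exact ⟨l, hl, n, fun y hy => hWW (hn y hy)⟩
  obtain ⟨s1, hs1, hs1'⟩ : ∃ s1 : Finset G, (B U s1 : Set X).Nonempty ∧
      ∀ s : Finset G, (B U s : Set X).Nonempty → (B U s : Set X) ⊆ B U s1 → R (B U s) := by
    by_contra hcon
    push Not at hcon
    have key : ∀ T' : Finset G, ∃ s : Finset G, (B U s : Set X).Nonempty ∧
        ∀ c ∈ T', ¬ R {y | c • y ∈ B U s} := by
      intro T'
      induction T' using Finset.induction_on with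
      | empty => exact ⟨s0.1, s0.2, by simp⟩
      | insert c T' _ ih =>
        obtain ⟨s, hs, hsT⟩ := ih
        obtain ⟨z, hz⟩ := hs
        obtain ⟨s', ⟨z', hz'⟩, hss, hns⟩ := hcon (sh s c) ⟨c⁻¹ • z, mem_B_sh.2 (by
          rwa [smul_inv_smul])⟩
        refine ⟨sh s' c⁻¹, ⟨c • z', mem_B_sh.2 (by rwa [inv_smul_smul])⟩, fun c' hc' hRc => ?_⟩
        rcases Finset.mem_insert.1 hc' with rfl | hc'
        · refine hns (hR _ _ ?_ hRc)
          intro y hy
          have := mem_B_sh.1 (show c' • y ∈ B U (sh s' c'⁻¹) from hy)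
          rwa [inv_smul_smul] at this
        · refine hsT c' hc' (hR _ _ ?_ hRc)
          intro y hy
          have h1 := hss (mem_B_sh.1 (show c' • y ∈ B U (sh s' c⁻¹) from hy))
          have h2 := mem_B_sh.1 h1
          rwa [smul_inv_smul] at h2
    obtain ⟨s, hs, hsT⟩ := key T
    obtain ⟨k, hk, n, hkn⟩ := hH s hs
    obtain ⟨c, hc, hck⟩ := hT k hk
    refine hsT c hc ⟨c⁻¹ * k, hck, n, fun y hy => ?_⟩
    show c • (c⁻¹ * k) • y ∈ B U s
    rw [← mul_smul, mul_inv_cancel_left]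
    exact hkn y hy
  have hKr : ∀ s : Finset G, (B U s : Set X).Nonempty →
      ∃ k ∈ K, ∃ n, ∀ y ∈ (B U (v n).1 : Set X), k • y ∈ B U s := by
    intro s hs
    obtain ⟨k, hk, z, hz, hkz⟩ := top_trans h x micro hKo (isOpen_B hU s) (isOpen_B hU s1) hs hs1
    obtain ⟨l, hl, n, hln⟩ := hs1' (s1 ∪ sh s k) ⟨z, mem_B_union.2 ⟨hz, mem_B_sh.2 hkz⟩⟩
      (B_anti Finset.subset_union_left)
    refine ⟨k * l, mul_mem hk hl.1, n, fun y hy => ?_⟩
    rw [mul_smul]
    exact mem_B_sh.1 (mem_B_union.1 (hln y hy)).2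
  -- all conjugates of `g` are in `K`
  have hnc : Subgroup.normalClosure {g} ≤ K := by
    rw [Subgroup.normalClosure, Subgroup.closure_le]
    intro z hz
    obtain ⟨b, hb, hbz⟩ := Group.mem_conjugatesOfSet_iff.1 hz
    obtain ⟨a, ha⟩ := isConj_iff.1 hbz
    rw [Set.mem_singleton_iff.1 hb] at ha
    obtain ⟨k, hk, n, hkn⟩ := hKr {a⁻¹} ⟨a • y0, fun c hc => by
      rw [Finset.mem_singleton.1 hc, inv_smul_smul]; exact hy0⟩
    have h1 : k⁻¹ * z * k ∈ P := by
      refine ⟨n, fun y hy => ?_⟩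
      have h2 := hkn y hy a⁻¹ (Finset.mem_singleton_self _)
      have h3 := hgU _ h2
      rw [← ha]
      have e : (k⁻¹ * (a * g * a⁻¹) * k) • y = k⁻¹ • a • g • a⁻¹ • k • y := by
        simp only [mul_smul]
      rw [e, h3, smul_inv_smul, inv_smul_smul]
    have h2 := mul_mem (mul_mem hk (hPK h1)) (inv_mem hk)
    have e : k * (k⁻¹ * z * k) * k⁻¹ = z := by group
    rwa [e] at h2
  rcases h.simple _ (Subgroup.normalClosure_normal (s := ({g} : Set G))) with h1 | h1
  · have : g ∈ Subgroup.normalClosure {g} := Subgroup.subset_normalClosure rfl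
    rw [h1] at this
    exact hg1 (Subgroup.mem_bot.1 this)
  · rw [h1] at hnc
    exact hK (top_le_iff.1 hnc)

end H64.BM
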