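import Pool.Agent.H64.BM.Trans

/-!
Minimal actions of torsion-free barely transitive groups on compact spaces are topologically free.
-/

set_option autoImplicit false

namespace H64.BM

open H47.BT (Bare)
open H64.BC (exists_ne_one)
open MulAction

variable {G Ω X : Type*} [Group G] [MulAction G Ω] [MulAction G X]

/-- the translate of `D` by `a` -/
def tr (a : G) (D : Set X) : Set X := {y | a⁻¹ • y ∈ D}

theorem mem_tr {a : G} {D : Set X} {y : X} : y ∈ tr a D ↔ a⁻¹ • y ∈ D := Iff.rfl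

theorem smul_mem_tr {a : G} {D : Set X} {y : X} : a • y ∈ tr a D ↔ y ∈ D := by
  rw [mem_tr, inv_smul_smul]

variable [TopologicalSpace X] [ContinuousConstSMul G X]

theorem isOpen_tr {D : Set X} (hD : IsOpen D) (a : G) : IsOpen (tr a D) :=
  hD.preimage (continuous_const_smul a⁻¹)

theorem interior_tr (a : G) (D : Set X) : interior (tr a D) = tr a (interior D) :=
  ((Homeomorph.smul (α := X) a⁻¹).preimage_interior D).symm

theorem closure_tr (a : G) (D : Set X) : closure (tr a D) = tr a (closure D) :=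
  ((Homeomorph.smul (α := X) a⁻¹).preimage_closure D).symm

/-- Regular open sets with open stabilizers. -/
structure Rg (G : Type*) {Ω X : Type*} [Group G] [MulAction G Ω] [MulAction G X]
    [TopologicalSpace X] (x : Ω) (D : Set X) : Prop where
  op : IsOpen D
  rg : interior (closure D) ⊆ D
  st : ∃ Y : Subgroup G, Y.relIndex (stabilizer G x) ≠ 0 ∧ ∀ y ∈ Y, ∀ z ∈ D, y • z ∈ D

omit [ContinuousConstSMul G X] in
theorem Rg.univ (x : Ω) : Rg G x (Set.univ : Set X) where
  op := isOpen_univ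
  rg := Set.subset_univ _
  st := ⟨⊤, by rw [Subgroup.relIndex_top_left]; exact one_ne_zero, fun _ _ _ _ => trivial⟩

omit [ContinuousConstSMul G X] in
theorem Rg.inter {x : Ω} {D E : Set X} (hD : Rg G x D) (hE : Rg G x E) : Rg G x (D ∩ E) where
  op := hD.op.inter hE.op
  rg := Set.subset_inter
    ((interior_mono (closure_mono Set.inter_subset_left)).trans hD.rg)
    ((interior_mono (closure_mono Set.inter_subset_right)).trans hE.rg)
  st := by
    obtain ⟨Y, hY, hYD⟩ := hD.st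
    obtain ⟨Z, hZ, hZE⟩ := hE.st
    exact ⟨Y ⊓ Z, Subgroup.relIndex_inf_ne_zero hY hZ, fun y hy z hz =>
      ⟨hYD y hy.1 z hz.1, hZE y hy.2 z hz.2⟩⟩

theorem Rg.perp {x : Ω} {D : Set X} (hD : Rg G x D) : Rg G x (closure D)ᶜ where
  op := isClosed_closure.isOpen_compl
  rg := by
    rw [closure_compl, interior_compl]
    refine Set.compl_subset_compl.2 (closure_mono ?_)
    exact interior_maximal subset_closure hD.op
  st := by
    obtain ⟨Y, hY, hYD⟩ := hD.st
    refine ⟨Y, hY, fun y hy z hz hc => hz ?_⟩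
    have := map_mem_closure (continuous_const_smul y⁻¹) hc fun w hw => hYD y⁻¹ (inv_mem hy) w hw
    rwa [inv_smul_smul] at this

theorem Rg.tr (h : Bare G Ω) {x : Ω} {D : Set X} (hD : Rg G x D) (a : G) :
    Rg G x (H64.BM.tr a D) where
  op := isOpen_tr hD.op a
  rg := by
    rw [closure_tr, interior_tr]
    exact fun y hy => hD.rg hy
  st := by
    obtain ⟨Y, hY, hYD⟩ := hD.st
    refine ⟨H47.BT.cj a Y, h.conj x a hY, fun y hy z hz => ?_⟩
    have h1 := hYD _ (H47.BT.mem_cj.1 hy) _ hz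
    rw [mem_tr]
    have e : a⁻¹ • y • z = (a⁻¹ * y * a) • a⁻¹ • z := by
      simp only [smul_smul, mul_assoc, mul_inv_cancel, mul_one]
    rw [e]
    exact h1

/-- if `k` does not map `D` to itself then it moves a smaller set of the same kind into the
complement -/
theorem Rg.move (h : Bare G Ω) {x : Ω} {D : Set X} (hD : Rg G x D) (k : G)
    (hk : ¬ ∀ z ∈ D, k • z ∈ D) :
    ∃ E : Set X, Rg G x E ∧ E.Nonempty ∧ E ⊆ D ∧ ∀ z ∈ E, k • z ∉ D := by
  refine ⟨D ∩ H64.BM.tr k⁻¹ (closure D)ᶜ, hD.inter (hD.perp.tr h k⁻¹), ?_, Set.inter_subset_left,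
    ?_⟩
  · by_contra hc
    rw [Set.not_nonempty_iff_eq_empty] at hc
    apply hk
    have h1 : H64.BM.tr k D ⊆ closure D := by
      intro z hz
      by_contra hzc
      have h2 : k⁻¹ • z ∈ D ∩ H64.BM.tr k⁻¹ (closure D)ᶜ := by
        refine ⟨hz, ?_⟩
        rw [smul_mem_tr]
        exact hzc
      rw [hc] at h2
      exact h2
    have h2 := (interior_maximal h1 (isOpen_tr hD.op k)).trans hD.rg
    intro z hz
    exact h2 (smul_mem_tr.2 hz)
  · rintro z ⟨_, hz⟩ hc
    rw [mem_tr, inv_inv] at hz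
    exact hz (subset_closure hc)

/-- the elements fixing all members of the algebra below `W` -/
def Mw (x : Ω) (W : Set X) : Subgroup G where
  carrier := {k | ∀ D : Set X, Rg G x D → D ⊆ W → ∀ z, z ∈ D ↔ k • z ∈ D}
  one_mem' := fun D _ _ z => by rw [one_smul]
  mul_mem' := by
    intro a b ha hb D hD hDW z
    rw [mul_smul, hb D hD hDW z, ha D hD hDW (b • z)]
  inv_mem' := by
    intro a ha D hD hDW z
    have := ha D hD hDW (a⁻¹ • z)
    rw [smul_inv_smul] at this
    exact this.symm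

theorem Mw_conj (h : Bare G Ω) {x : Ω} {W : Set X} {m : G} (hm : m ∈ Mw x W) (a : G) :
    a * m * a⁻¹ ∈ Mw x (tr a W) := by
  intro D hD hDW z
  have h1 := hm (tr a⁻¹ D) (hD.tr h a⁻¹) (by
    intro w hw
    rw [mem_tr, inv_inv] at hw
    have := hDW hw
    rwa [smul_mem_tr] at this) (a⁻¹ • z)
  rw [mem_tr, mem_tr, inv_inv, smul_inv_smul] at h1
  rw [h1]
  simp only [mul_smul]

omit [TopologicalSpace X] [ContinuousConstSMul G X] in
theorem tr_self {Y : Subgroup G} {W : Set X} (hYW : ∀ y ∈ Y, ∀ z ∈ W, y • z ∈ W) {y : G}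
    (hy : y ∈ Y) : tr y W = W := by
  ext z
  rw [mem_tr]
  constructor
  · intro hz
    have := hYW y hy _ hz
    rwa [smul_inv_smul] at this
  · exact hYW y⁻¹ (inv_mem hy) z

theorem Mw_LN (h : Bare G Ω) {x : Ω} {W : Set X} (hW : Rg G x W) :
    ∃ Y : Subgroup G, Y.relIndex (stabilizer G x) ≠ 0 ∧
      ∀ y ∈ Y, ∀ m ∈ (Mw x W : Subgroup G), y * m * y⁻¹ ∈ (Mw x W : Subgroup G) := by
  obtain ⟨Y, hY, hYW⟩ := hW.st
  refine ⟨Y, hY, fun y hy m hm => ?_⟩
  have := Mw_conj h hm y
  rwa [tr_self hYW hy] at this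

/-- **Minimal actions on compact spaces are topologically free.** -/
theorem minimal_free [CompactSpace X] [T2Space X] [Nontrivial X] [IsMinimal G X]
    (h : Bare G Ω) (x : Ω) {g : G} (hg1 : g ≠ 1) {U : Set X} (hU : IsOpen U) (hUn : U.Nonempty)
    (hgU : ∀ y ∈ U, g • y = y) : False := by
  classical
  refine top_free (X := X) h x ?_ hg1 hU hUn hgU
  by_contra hntt
  push Not at hntt
  obtain ⟨L, hL, U', V', hU', hV', hUn', hVn', hUV⟩ := hntt
  -- a regular open set which is not invariant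
  have hcov : ∀ W : Set X, IsOpen W → W.Nonempty → ∃ T : Finset G, ∀ z : X, ∃ a ∈ T, a • z ∈ W := by
    intro W hW hWn
    obtain ⟨I, hI⟩ := (isCompact_univ (X := X)).exists_finite_cover_smul G hW hWn
    refine ⟨I.image fun a => a⁻¹, fun z => ?_⟩
    have hz := hI (Set.mem_univ z)
    rw [Set.mem_iUnion₂] at hz
    obtain ⟨a, ha, haz⟩ := hz
    exact ⟨a⁻¹, Finset.mem_image.2 ⟨a, ha, rfl⟩, Set.mem_smul_set_iff_inv_smul_mem.1 haz⟩
  have hV : ∃ D : Set X, Rg G x D ∧ D.Nonempty ∧ D ≠ Set.univ := by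
    let O : Set X := {y | ∃ l ∈ L, l • y ∈ V'}
    have hO : IsOpen O := by
      have : O = ⋃ l ∈ L, (fun y => l • y) ⁻¹' V' := by
        ext y
        simp [O]
      rw [this]
      exact isOpen_biUnion fun l _ => hV'.preimage (continuous_const_smul l)
    have hVO : V' ⊆ O := fun y hy => ⟨1, one_mem _, by rwa [one_smul]⟩
    have hOD : O ⊆ interior (closure O) := hO.subset_interior_closure
    have hOL : ∀ l ∈ L, ∀ y ∈ O, l • y ∈ O := by
      rintro l hl y ⟨k, hk, hky⟩
      exact ⟨k * l⁻¹, mul_mem hk (inv_mem hl), by rwa [mul_smul, inv_smul_smul]⟩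
    refine ⟨interior (closure O), ⟨isOpen_interior, ?_, ⟨L, hL, ?_⟩⟩,
      (hVn'.mono (hVO.trans hOD)), ?_⟩
    · exact interior_mono (closure_minimal interior_subset isClosed_closure)
    · intro l hl z hz
      have h1 : tr l O = O := tr_self hOL hl
      have h2 : tr l (interior (closure O)) = interior (closure O) := by
        rw [← interior_tr, ← closure_tr, h1]
      rw [← h2, smul_mem_tr]
      exact hz
    · intro hc
      obtain ⟨u, hu⟩ := hUn'
      have hu' : u ∈ closure O := interior_subset (by rw [hc]; trivial : u ∈ interior (closure O))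
      obtain ⟨w, hwU, l, hl, hlw⟩ := mem_closure_iff.1 hu' U' hU' hu
      refine hUV l⁻¹ (inv_mem hl) (l • w) hlw ?_
      rwa [inv_smul_smul]
  -- `U` is dense in some `W0`
  obtain ⟨W0, hW0, hW0n, hW0d⟩ : ∃ W0 : Set X, Rg G x W0 ∧ W0.Nonempty ∧
      ∀ E : Set X, Rg G x E → E.Nonempty → E ⊆ W0 → ∃ z ∈ E, z ∈ U := by
    by_contra hcon
    push Not at hcon
    have key : ∀ T : Finset G, ∃ E : Set X, Rg G x E ∧ E.Nonempty ∧
        ∀ a ∈ T, ∀ z ∈ E, a • z ∉ U := by
      intro T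
      induction T using Finset.induction_on with
      | empty =>
        obtain ⟨y, _⟩ := hUn
        exact ⟨Set.univ, Rg.univ x, ⟨y, trivial⟩, by simp⟩
      | insert c T _ ih =>
        obtain ⟨E, hE, ⟨z, hz⟩, hET⟩ := ih
        obtain ⟨E', hE', ⟨z', hz'⟩, hEE, hEU⟩ := hcon (tr c E) (hE.tr h c)
          ⟨c • z, smul_mem_tr.2 hz⟩
        refine ⟨tr c⁻¹ E', hE'.tr h c⁻¹, ⟨c⁻¹ • z', smul_mem_tr.2 hz'⟩, ?_⟩
        intro a ha w hw
        rw [mem_tr, inv_inv] at hw
        rcases Finset.mem_insert.1 ha with rfl | ha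
        · exact hEU _ hw
        · refine hET a ha w ?_
          have := hEE hw
          rwa [smul_mem_tr] at this
    obtain ⟨T, hT⟩ := hcov U hU hUn
    obtain ⟨E, _, ⟨z, hz⟩, hET⟩ := key T
    obtain ⟨a, ha, haz⟩ := hT z
    exact hET a ha z hz haz
  have hgM : g ∈ (Mw x W0 : Subgroup G) := by
    have hfix : ∀ k : G, (∀ y ∈ U, k • y = y) → ∀ D : Set X, Rg G x D → D ⊆ W0 →
        ∀ z ∈ D, k • z ∈ D := by
      intro k hk D hD hDW
      by_contra hc
      obtain ⟨E, hE, hEn, hED, hEk⟩ := hD.move h k hc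
      obtain ⟨z, hz, hzU⟩ := hW0d E hE hEn (hED.trans hDW)
      refine hEk z hz ?_
      rw [hk z hzU]
      exact hED hz
    intro D hD hDW z
    refine ⟨hfix g hgU D hD hDW z, fun hz => ?_⟩
    have := hfix g⁻¹ (fun y hy => by rw [inv_smul_eq_iff, hgU y hy]) D hD hDW _ hz
    rwa [inv_smul_smul] at this
  -- finite intersections
  have hint : ∀ T : Finset G, ∃ N Y : Subgroup G, Y.relIndex (stabilizer G x) ≠ 0 ∧
      (∀ y ∈ Y, ∀ m ∈ N, y * m * y⁻¹ ∈ N) ∧ N ≠ ⊥ ∧ ∀ a ∈ T, N ≤ Mw x (tr a W0) := by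
    intro T
    induction T using Finset.induction_on with
    | empty =>
      refine ⟨⊤, ⊤, ?_, fun _ _ _ _ => trivial, ?_, by simp⟩
      · rw [Subgroup.relIndex_top_left]
        exact one_ne_zero
      · intro hc
        have : g ∈ (⊤ : Subgroup G) := trivial
        rw [hc] at this
        exact hg1 (Subgroup.mem_bot.1 this)
    | insert c T _ ih =>
      obtain ⟨N, Y, hY, hYN, hN, hNT⟩ := ih
      obtain ⟨Z, hZ, hZM⟩ := Mw_LN h (hW0.tr h c)
      have hM : (Mw x (tr c W0) : Subgroup G) ≠ ⊥ := by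
        intro hc
        have := Mw_conj h hgM c
        rw [hc] at this
        have h1 := Subgroup.mem_bot.1 this
        apply hg1
        have h2 : c⁻¹ * (c * g * c⁻¹) * c = c⁻¹ * 1 * c := by rw [h1]
        have e1 : c⁻¹ * (c * g * c⁻¹) * c = g := by group
        have e2 : c⁻¹ * 1 * c = (1 : G) := by group
        rwa [e1, e2] at h2
      refine ⟨N ⊓ Mw x (tr c W0), Y ⊓ Z, Subgroup.relIndex_inf_ne_zero hY hZ, ?_,
        H64.BC.inf_ne_bot h x hN hM hY hZ hYN hZM, ?_⟩
      · intro y hy m hm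
        exact ⟨hYN y hy.1 m hm.1, hZM y hy.2 m hm.2⟩
      · intro a ha
        rcases Finset.mem_insert.1 ha with rfl | ha
        · exact inf_le_right
        · exact inf_le_left.trans (hNT a ha)
  obtain ⟨T, hT⟩ := hcov W0 hW0.op hW0n
  obtain ⟨N, Y, _, _, hN, hNT⟩ := hint (T.image fun a => a⁻¹)
  obtain ⟨k, hk, hk1⟩ := exists_ne_one hN
  have hkfix : ∀ k ∈ N, ∀ D : Set X, Rg G x D → ∀ z ∈ D, k • z ∈ D := by
    intro k hk D hD
    by_contra hc
    obtain ⟨E, hE, ⟨z, hz⟩, hED, hEk⟩ := hD.move h k hc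
    obtain ⟨a, ha, haz⟩ := hT z
    have hza : z ∈ tr a⁻¹ W0 := by rwa [mem_tr, inv_inv]
    have h1 := hNT a⁻¹ (Finset.mem_image.2 ⟨a, ha, rfl⟩) hk (E ∩ tr a⁻¹ W0)
      (hE.inter (hW0.tr h a⁻¹)) Set.inter_subset_right z
    exact hEk z hz (hED (h1.1 ⟨hz, hza⟩).1)
  have hker : (Mw x (Set.univ : Set X) : Subgroup G) = ⊤ := by
    have hn : (Mw x (Set.univ : Set X) : Subgroup G).Normal := by
      refine ⟨fun m hm a => ?_⟩
      exact Mw_conj h hm a
    rcases h.simple _ hn with h1 | h1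
    · exfalso
      have h2 : k ∈ (Mw x (Set.univ : Set X) : Subgroup G) := by
        intro D hD _ z
        refine ⟨hkfix k hk D hD z, fun hz => ?_⟩
        have := hkfix k⁻¹ (inv_mem hk) D hD _ hz
        rwa [inv_smul_smul] at this
      rw [h1] at h2
      exact hk1 (Subgroup.mem_bot.1 h2)
    · exact h1
  obtain ⟨D, hD, hDn, hDu⟩ := hV
  apply hDu
  rw [Set.eq_univ_iff_forall]
  intro z
  obtain ⟨T', hT'⟩ := hcov D hD.op hDn
  obtain ⟨a, _, haz⟩ := hT' z
  have h1 : a ∈ (Mw x (Set.univ : Set X) : Subgroup G) := by rw [hker]; trivial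
  exact (h1 D hD (Set.subset_univ _) z).2 haz

end H64.BM
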