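import Pool.Agent.H64.BM.Micro

/-!
Torsion-free barely transitive groups: actions in which all open subgroups are topologically
transitive are topologically free.
-/

set_option autoImplicit false

namespace H64.BM

open H47.BT (Bare)
open H64.BC (exists_ne_one)
open MulAction

variable {G Ω X : Type*} [Group G] [MulAction G Ω] [MulAction G X]

/-- If all open subgroups of a torsion-free barely transitive group act topologically transitively on
a Hausdorff space then the action is topologically free. -/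
theorem top_free [TopologicalSpace X] [T2Space X] [Nontrivial X] [ContinuousConstSMul G X]
    (h : Bare G Ω) (x : Ω)
    (htt : ∀ L : Subgroup G, L.relIndex (stabilizer G x) ≠ 0 → ∀ U V : Set X, IsOpen U → IsOpen V →
      U.Nonempty → V.Nonempty → ∃ l ∈ L, ∃ z ∈ V, l • z ∈ U) {g : G} (hg1 : g ≠ 1) {U1 : Set X}
    (hU1 : IsOpen U1) (hU1n : U1.Nonempty) (hgU1 : ∀ y ∈ U1, g • y = y) : False := by
  classical
  have hcount := countable h x
  have hstab : (stabilizer G x).relIndex (stabilizer G x) ≠ 0 := by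
    rw [Subgroup.relIndex_self]
    exact one_ne_zero
  -- an element moving an open set off itself
  obtain ⟨t, U, hU, hUn, hUU, htU⟩ : ∃ (t : G) (U : Set X), IsOpen U ∧ U.Nonempty ∧ U ⊆ U1 ∧
      ∀ y ∈ U, t • y ∉ U := by
    obtain ⟨y1, hy1⟩ := hU1n
    obtain ⟨y2, hy2⟩ := exists_ne y1
    obtain ⟨V1, V2, hV1, hV2, h1, h2, hV⟩ := t2_separation hy2.symm
    obtain ⟨l, _, z, hz, hlz⟩ := htt _ hstab V2 (U1 ∩ V1) hV2 (hU1.inter hV1) ⟨y2, h2⟩
      ⟨y1, hy1, h1⟩
    refine ⟨l, (U1 ∩ V1) ∩ (fun y => l • y) ⁻¹' V2,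
      (hU1.inter hV1).inter (hV2.preimage (continuous_const_smul l)), ⟨z, hz, hlz⟩,
      fun y hy => hy.1.1, fun y hy hc => ?_⟩
    exact Set.disjoint_left.1 hV hc.1.2 hy.2
  obtain ⟨y0, hy0⟩ := hUn
  have hgU : ∀ y ∈ U, g • y = y := fun y hy => hgU1 y (hUU hy)
  -- the sequence
  let St := {s : Finset G // (B U s : Set X).Nonempty}
  have hstep : ∀ (v : St) (s : Finset G), ∃ v' : St, v.1 ⊆ v'.1 ∧
      ((B U s : Set X).Nonempty → ∃ k ∈ stabilizer G x, ∀ y ∈ (B U v'.1 : Set X), k • y ∈ B U s) := by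
    rintro ⟨v, hv⟩ s
    by_cases hs : (B U s : Set X).Nonempty
    · obtain ⟨k, hk, z, hz, hkz⟩ := htt (stabilizer G x) hstab _ _ (isOpen_B hU s)
        (isOpen_B hU v) hs hv
      refine ⟨⟨v ∪ sh s k, ⟨z, mem_B_union.2 ⟨hz, mem_B_sh.2 hkz⟩⟩⟩, Finset.subset_union_left,
        fun _ => ⟨k, hk, fun y hy => ?_⟩⟩
      exact mem_B_sh.1 (mem_B_union.1 hy).2
    · exact ⟨⟨v, hv⟩, Finset.Subset.refl _, fun hc => absurd hc hs⟩
  choose nx hnx1 hnx2 using hstep
  obtain ⟨e, he⟩ := exists_surjective_nat (Finset G)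
  let s0 : St := ⟨{1}, ⟨y0, fun g hg => by rw [Finset.mem_singleton.1 hg, one_smul]; exact hy0⟩⟩
  let v : ℕ → St := fun n => Nat.rec s0 (fun n p => nx p (e n)) n
  have hvs : ∀ n, v (n + 1) = nx (v n) (e n) := fun n => rfl
  have hmono : Monotone fun n => (v n).1 := monotone_nat_of_le_succ fun n => by
    show (v n).1 ≤ (v (n + 1)).1
    rw [hvs]
    exact hnx1 _ _
  have hH : ∀ s : Finset G, (B U s : Set X).Nonempty →
      ∃ k ∈ stabilizer G x, ∃ n, ∀ y ∈ (B U (v n).1 : Set X), k • y ∈ B U s := by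
    intro s hs
    obtain ⟨n, rfl⟩ := he s
    obtain ⟨k, hk, hky⟩ := hnx2 (v n) (e n) hs
    exact ⟨k, hk, n + 1, fun y hy => hky y (by rwa [hvs] at hy)⟩
  let P : Subgroup G :=
    { carrier := {g | ∃ n, ∀ y ∈ (B U (v n).1 : Set X), g • y = y}
      one_mem' := ⟨0, fun y _ => one_smul G y⟩
      mul_mem' := by
        rintro a b ⟨n, ha⟩ ⟨m, hb⟩
        refine ⟨max n m, fun y hy => ?_⟩
        rw [mul_smul, hb y (B_anti (hmono (le_max_right n m)) hy),
          ha y (B_anti (hmono (le_max_left n m)) hy)]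
      inv_mem' := by
        rintro a ⟨n, ha⟩
        exact ⟨n, fun y hy => by rw [inv_smul_eq_iff, ha y hy]⟩ }
  have hPt : P ≠ ⊤ := by
    intro hc
    have htP : t ∈ P := by rw [hc]; trivial
    obtain ⟨n, hn⟩ := htP
    obtain ⟨y, hy⟩ := (v n).2
    have hyU : y ∈ U := by
      have := hy 1 (hmono (Nat.zero_le n) (Finset.mem_singleton_self 1))
      rwa [one_smul] at this
    have h1 := hn y hy
    apply htU y hyU
    rw [h1]
    exact hyU
  obtain ⟨K, hK, hPK, hKo⟩ := H64.BA.exists_open h x hPt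
  -- representatives
  have hrep : ∃ T : Finset G, ∀ k ∈ stabilizer G x, ∃ c ∈ T, c⁻¹ * k ∈ K ⊓ stabilizer G x := by
    have : (K.subgroupOf (stabilizer G x)).FiniteIndex := ⟨hKo⟩
    have : Finite (stabilizer G x ⧸ K.subgroupOf (stabilizer G x)) :=
      Subgroup.finite_quotient_of_finiteIndex
    have hfin := Set.finite_range
      fun c : stabilizer G x ⧸ K.subgroupOf (stabilizer G x) => ((c.out : stabilizer G x) : G)
    refine ⟨hfin.toFinset, fun k hk => ?_⟩
    refine ⟨_, hfin.mem_toFinset.2 ⟨QuotientGroup.mk (⟨k, hk⟩ : stabilizer G x), rfl⟩, ?_⟩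
    have h1 : (QuotientGroup.mk (QuotientGroup.mk (⟨k, hk⟩ : stabilizer G x) :
        stabilizer G x ⧸ K.subgroupOf (stabilizer G x)).out :
        stabilizer G x ⧸ K.subgroupOf (stabilizer G x)) =
        QuotientGroup.mk (⟨k, hk⟩ : stabilizer G x) := QuotientGroup.out_eq' _
    have h2 := QuotientGroup.eq.1 h1
    rw [Subgroup.mem_subgroupOf] at h2
    exact ⟨h2, mul_mem (Subgroup.inv_mem _ (Subtype.mem _)) hk⟩
  obtain ⟨T, hT⟩ := hrep
  let R : Set X → Prop := fun W =>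
    ∃ l ∈ K ⊓ stabilizer G x, ∃ n, ∀ y ∈ (B U (v n).1 : Set X), l • y ∈ W
  have hR : ∀ W W' : Set X, W ⊆ W' → R W → R W' := by
    rintro W W' hWW ⟨l, hl, n, hn⟩
    exact ⟨l, hl, n, fun y hy => hWW (hn y hy)⟩
  obtain ⟨s1, hs1, hs1'⟩ : ∃ s1 : Finset G, (B U s1 : Set X).Nonempty ∧
      ∀ s : Finset G, (B U s : Set X).Nonempty → (B U s : Set X) ⊆ B U s1 → R (B U s) := by
    by_contra hcon
    push Not at hcon
    have key : ∀ T' : Finset G, ∃ s : Finset G, (B U s : Set X).Nonempty ∧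
        ∀ c ∈ T', ¬ R {y | c • y ∈ B U s} := by
      intro T'
      induction T' using Finset.induction_on with
      | empty => exact ⟨s0.1, s0.2, by simp⟩
      | insert c T' _ ih =>
        obtain ⟨s, hs, hsT⟩ := ih
        obtain ⟨z, hz⟩ := hs
        obtain ⟨s', ⟨z', hz'⟩, hss, hns⟩ := hcon (sh s c) ⟨c⁻¹ • z, mem_B_sh.2 (by
          rwa [smul_inv_smul])⟩
        refine ⟨sh s' c⁻¹, ⟨c • z', mem_B_sh.2 (by rwa [inv_smul_smul])⟩, fun c' hc' hRc => ?_⟩
        rcases Finset.mem_insert.1 hc' with rfl | hc'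
        · refine hns (hR _ _ ?_ hRc)
          intro y hy
          have := mem_B_sh.1 (show c' • y ∈ B U (sh s' c'⁻¹) from hy)
          rwa [inv_smul_smul] at this
        · refine hsT c' hc' (hR _ _ ?_ hRc)
          intro y hy
          have h1 := hss (mem_B_sh.1 (show c' • y ∈ B U (sh s' c⁻¹) from hy))
          have h2 := mem_B_sh.1 h1
          rwa [smul_inv_smul] at h2
    obtain ⟨s, hs, hsT⟩ := key T
    obtain ⟨k, hk, n, hkn⟩ := hH s hs
    obtain ⟨c, hc, hck⟩ := hT k hk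
    refine hsT c hc ⟨c⁻¹ * k, hck, n, fun y hy => ?_⟩
    show c • (c⁻¹ * k) • y ∈ B U s
    rw [← mul_smul, mul_inv_cancel_left]
    exact hkn y hy
  have hKr : ∀ s : Finset G, (B U s : Set X).Nonempty →
      ∃ k ∈ K, ∃ n, ∀ y ∈ (B U (v n).1 : Set X), k • y ∈ B U s := by
    intro s hs
    obtain ⟨k, hk, z, hz, hkz⟩ := htt K hKo _ _ (isOpen_B hU s) (isOpen_B hU s1) hs hs1
    obtain ⟨l, hl, n, hln⟩ := hs1' (s1 ∪ sh s k) ⟨z, mem_B_union.2 ⟨hz, mem_B_sh.2 hkz⟩⟩
      (B_anti Finset.subset_union_left)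
    refine ⟨k * l, mul_mem hk hl.1, n, fun y hy => ?_⟩
    rw [mul_smul]
    exact mem_B_sh.1 (mem_B_union.1 (hln y hy)).2
  -- all conjugates of `g` are in `K`
  have hnc : Subgroup.normalClosure {g} ≤ K := by
    rw [Subgroup.normalClosure, Subgroup.closure_le]
    intro z hz
    obtain ⟨b, hb, hbz⟩ := Group.mem_conjugatesOfSet_iff.1 hz
    obtain ⟨a, ha⟩ := isConj_iff.1 hbz
    rw [Set.mem_singleton_iff.1 hb] at ha
    obtain ⟨k, hk, n, hkn⟩ := hKr {a⁻¹} ⟨a • y0, fun c hc => by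
      rw [Finset.mem_singleton.1 hc, inv_smul_smul]; exact hy0⟩
    have h1 : k⁻¹ * z * k ∈ P := by
      refine ⟨n, fun y hy => ?_⟩
      have h2 := hkn y hy a⁻¹ (Finset.mem_singleton_self _)
      have h3 := hgU _ h2
      rw [← ha]
      have e : (k⁻¹ * (a * g * a⁻¹) * k) • y = k⁻¹ • a • g • a⁻¹ • k • y := by
        simp only [mul_smul]
      rw [e, h3, smul_inv_smul, inv_smul_smul]
    have h2 := mul_mem (mul_mem hk (hPK h1)) (inv_mem hk)
    have e : k * (k⁻¹ * z * k) * k⁻¹ = z := by group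
    rwa [e] at h2
  rcases h.simple _ (Subgroup.normalClosure_normal (s := ({g} : Set G))) with h1 | h1
  · have : g ∈ Subgroup.normalClosure {g} := Subgroup.subset_normalClosure rfl
    rw [h1] at this
    exact hg1 (Subgroup.mem_bot.1 this)
  · rw [h1] at hnc
    exact hK (top_le_iff.1 hnc)

end H64.BM
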